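import Mathlib

/-!
# Davenport's bound `|a_l| ≤ 2 l^{3/4}` for `y² = x³ + A x + B`

Fourth moment over all monic cubics (Mordell, Davenport).
-/

set_option autoImplicit false

open Finset

namespace Pool.Agent.Dav

variable {F : Type*} [Field F] [Fintype F] [DecidableEq F]

/-- sum over a line -/
theorem sum_line (hF : ringChar F ≠ 2) {g d : F} (hd : d ≠ 0) :
    ∑ w : F, (quadraticChar F) w * (quadraticChar F) (g * w + d) = - (quadraticChar F) g := by
  have h0 : ∑ w : F, (quadraticChar F) w * (quadraticChar F) (g * w + d) = ∑ w ∈ univ.erase (0 : F), (quadraticChar F) (g + d * w⁻¹) := by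
    rw [← Finset.add_sum_erase univ _ (mem_univ (0 : F))]
    rw [quadraticChar_zero, zero_mul, zero_add]
    refine Finset.sum_congr rfl fun w hw => ?_
    have hw0 : w ≠ 0 := (Finset.mem_erase.1 hw).1
    have h1 : g * w + d = w * (g + d * w⁻¹) := by field_simp
    rw [h1, map_mul, ← mul_assoc, ← sq, quadraticChar_sq_one hw0, one_mul]
  rw [h0]
  have h2 : ∑ w ∈ univ.erase (0 : F), (quadraticChar F) (g + d * w⁻¹) = ∑ z ∈ univ.erase g, (quadraticChar F) z := by
    refine Finset.sum_bij' (fun w _ => g + d * w⁻¹) (fun z _ => d * (z - g)⁻¹) ?_ ?_ ?_ ?_ ?_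
    · intro w hw
      have hw0 : w ≠ 0 := (Finset.mem_erase.1 hw).1
      simp only [mem_erase, mem_univ, and_true, ne_eq, add_eq_left, mul_eq_zero, inv_eq_zero,
        not_or]
      exact ⟨hd, hw0⟩
    · intro z hz
      have hz0 : z ≠ g := (Finset.mem_erase.1 hz).1
      simp only [mem_erase, mem_univ, and_true, ne_eq, mul_eq_zero, inv_eq_zero, not_or]
      exact ⟨hd, sub_ne_zero.2 hz0⟩
    · intro w hw
      have hw0 : w ≠ 0 := (Finset.mem_erase.1 hw).1
      simp only [add_sub_cancel_left]
      field_simp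
    · intro z hz
      have hz0 : z - g ≠ 0 := sub_ne_zero.2 (Finset.mem_erase.1 hz).1
      field_simp
      ring
    · intro w _
      rfl
  rw [h2, Finset.sum_erase_eq_sub (mem_univ g), quadraticChar_sum_zero hF, zero_sub]

theorem sum_line_zero {g : F} : ∑ w : F, (quadraticChar F) w * (quadraticChar F) (g * w) = (quadraticChar F) g * (Fintype.card F - 1) := by
  have h0 : ∑ w : F, (quadraticChar F) w * (quadraticChar F) (g * w) = ∑ w ∈ univ.erase (0 : F), (quadraticChar F) g := by
    rw [← Finset.add_sum_erase univ _ (mem_univ (0 : F))]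
    rw [quadraticChar_zero, zero_mul, zero_add]
    refine Finset.sum_congr rfl fun w hw => ?_
    have hw0 : w ≠ 0 := (Finset.mem_erase.1 hw).1
    rw [map_mul, mul_comm ((quadraticChar F) g), ← mul_assoc, ← sq, quadraticChar_sq_one hw0, one_mul]
  rw [h0, Finset.sum_const, nsmul_eq_mul, Finset.card_erase_of_mem (mem_univ _), card_univ,
    mul_comm]
  congr 1
  have := Fintype.card_pos (α := F)
  push_cast [Nat.cast_sub (show 1 ≤ Fintype.card F from this)]
  ring

theorem sum_line' (hF : ringChar F ≠ 2) {g d : F} :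
    ∑ w : F, (quadraticChar F) w * (quadraticChar F) (g * w + d) = (quadraticChar F) g * ((if d = 0 then (Fintype.card F : ℤ) else 0) - 1) := by
  split_ifs with h
  · subst h
    simp only [add_zero]
    exact sum_line_zero
  · rw [sum_line hF h]; ring

/-- the four point sum in coordinates -/
theorem sum_four (hF : ringChar F ≠ 2) {a b g d : F} (hb : b ≠ 0) (hd : d ≠ 0) :
    ∑ u : F, ∑ v : F, ∑ w : F, (quadraticChar F) u * (quadraticChar F) v * ((quadraticChar F) w * (quadraticChar F) (g * w + (a * u + b * v + d))) =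
      - (Fintype.card F : ℤ) * (quadraticChar F) (-(a * b * g)) := by
  simp only [← Finset.mul_sum, sum_line' hF]
  have h1 : ∀ u v : F, (quadraticChar F) u * (quadraticChar F) v * ((quadraticChar F) g * ((if a * u + b * v + d = 0 then (Fintype.card F : ℤ)
      else 0) - 1)) = (Fintype.card F : ℤ) * (quadraticChar F) g * (quadraticChar F) u * (if v = -(a * u + d) / b then (quadraticChar F) v else 0)
        - (quadraticChar F) g * (quadraticChar F) u * (quadraticChar F) v := by
    intro u v
    have h2 : (a * u + b * v + d = 0) ↔ (v = -(a * u + d) / b) := by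
      constructor
      · intro h
        field_simp
        linear_combination h
      · intro h
        subst h
        field_simp
        ring
    by_cases h : v = -(a * u + d) / b
    · rw [if_pos (h2.2 h), if_pos h]; ring
    · rw [if_neg (fun h3 => h (h2.1 h3)), if_neg h]; ring
  simp only [h1, Finset.sum_sub_distrib, ← Finset.mul_sum, quadraticChar_sum_zero hF, mul_zero,
    sub_zero, Finset.sum_ite_eq', mem_univ, if_true]
  have h3 : ∀ u : F, (Fintype.card F : ℤ) * (quadraticChar F) g * (quadraticChar F) u * (quadraticChar F) (-(a * u + d) / b) =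
      (Fintype.card F : ℤ) * (quadraticChar F) g * (quadraticChar F) (-b) * ((quadraticChar F) u * (quadraticChar F) (a * u + d)) := by
    intro u
    have h4 : -(a * u + d) / b = (-b) * (a * u + d) * (b⁻¹) ^ 2 := by field_simp
    have h5 : (quadraticChar F) ((b⁻¹) ^ 2) = 1 := by
      rw [map_pow]
      exact quadraticChar_sq_one (inv_ne_zero hb)
    rw [h4, map_mul, map_mul, h5]
    ring
  simp only [h3, ← Finset.mul_sum]
  rw [sum_line hF hd]
  have h6 : -(a * b * g) = g * (-b) * a := by ring
  rw [h6, map_mul, map_mul]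
  ring

/-- the monic cubic with coefficients `c` -/
def cub (c : F × F × F) (x : F) : F := x ^ 3 + c.1 * x ^ 2 + c.2.1 * x + c.2.2

/-- a point different from two others averages to zero -/
theorem sum_single (hF : ringChar F ≠ 2) {y a b : F} (ha : y ≠ a) (hb : y ≠ b)
    (G : F → F → ℤ) : ∑ c : F × F × F, (quadraticChar F) (cub c y) * G (cub c a) (cub c b) = 0 := by
  have hda : y - a ≠ 0 := sub_ne_zero.2 ha
  have hdb : y - b ≠ 0 := sub_ne_zero.2 hb
  set k : F := ((y - a) * (y - b))⁻¹ with hk
  have hk1 : k * ((y - a) * (y - b)) = 1 := inv_mul_cancel₀ (mul_ne_zero hda hdb)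
  have h1 : ∀ t : F, ∑ c : F × F × F, (quadraticChar F) (cub c y) * G (cub c a) (cub c b) =
      ∑ c : F × F × F, (quadraticChar F) (cub c y + t) * G (cub c a) (cub c b) := by
    intro t
    rw [← Equiv.sum_comp (Equiv.addRight ((t * k, -(t * k * (a + b)), t * k * (a * b)) :
      F × F × F)) (fun c : F × F × F => (quadraticChar F) (cub c y) * G (cub c a) (cub c b))]
    refine Finset.sum_congr rfl fun c _ => ?_
    have e1 : cub ((Equiv.addRight ((t * k, -(t * k * (a + b)), t * k * (a * b)) : F × F × F)) c) y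
        = cub c y + t := by
      simp only [Equiv.coe_addRight, cub, Prod.fst_add, Prod.snd_add]
      linear_combination t * hk1
    have e2 : cub ((Equiv.addRight ((t * k, -(t * k * (a + b)), t * k * (a * b)) : F × F × F)) c) a
        = cub c a := by
      simp only [Equiv.coe_addRight, cub, Prod.fst_add, Prod.snd_add]
      ring
    have e3 : cub ((Equiv.addRight ((t * k, -(t * k * (a + b)), t * k * (a * b)) : F × F × F)) c) b
        = cub c b := by
      simp only [Equiv.coe_addRight, cub, Prod.fst_add, Prod.snd_add]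
      ring
    rw [e1, e2, e3]
  have h2 : (Fintype.card F : ℤ) * ∑ c : F × F × F, (quadraticChar F) (cub c y) * G (cub c a) (cub c b) = 0 := by
    have h3 : (Fintype.card F : ℤ) * ∑ c : F × F × F, (quadraticChar F) (cub c y) * G (cub c a) (cub c b) =
        ∑ t : F, ∑ c : F × F × F, (quadraticChar F) (cub c y + t) * G (cub c a) (cub c b) := by
      rw [← Finset.sum_congr rfl (fun t _ => h1 t), Finset.sum_const, card_univ, nsmul_eq_mul]
    rw [h3, Finset.sum_comm]
    refine Finset.sum_eq_zero fun c _ => ?_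
    have h5 := Equiv.sum_comp (Equiv.addLeft (cub c y)) (fun t => (quadraticChar F) t)
    simp only [Equiv.coe_addLeft] at h5
    rw [← Finset.sum_mul, h5, quadraticChar_sum_zero hF, zero_mul]
  have h4 : (Fintype.card F : ℤ) ≠ 0 := by
    have := Fintype.card_pos (α := F)
    positivity
  exact (mul_eq_zero.1 h2).resolve_left h4

/-- interpolation at three points -/
def interp (x y z : F) (s : F × F × F) : F × F × F :=
  (-(x + y + z) + s.1 / ((x - y) * (x - z)) + s.2.1 / ((y - x) * (y - z)) +
      s.2.2 / ((z - x) * (z - y)),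
    (x * y + x * z + y * z) - s.1 * (y + z) / ((x - y) * (x - z)) -
      s.2.1 * (x + z) / ((y - x) * (y - z)) - s.2.2 * (x + y) / ((z - x) * (z - y)),
    -(x * y * z) + s.1 * (y * z) / ((x - y) * (x - z)) + s.2.1 * (x * z) / ((y - x) * (y - z)) +
      s.2.2 * (x * y) / ((z - x) * (z - y)))

omit [Fintype F] [DecidableEq F] in
theorem cub_interp (x y z : F) (s : F × F × F) (t : F) :
    cub (interp x y z s) t = (t - x) * (t - y) * (t - z) +
      s.1 * ((t - y) * (t - z)) / ((x - y) * (x - z)) +
      s.2.1 * ((t - x) * (t - z)) / ((y - x) * (y - z)) +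
      s.2.2 * ((t - x) * (t - y)) / ((z - x) * (z - y)) := by
  simp only [cub, interp, div_eq_mul_inv]
  ring

omit [Fintype F] [DecidableEq F] in
theorem cub_interp1 {x y z : F} (hxy : x ≠ y) (hxz : x ≠ z) (s : F × F × F) :
    cub (interp x y z s) x = s.1 := by
  have h1 := sub_ne_zero.2 hxy
  have h2 := sub_ne_zero.2 hxz
  rw [cub_interp]
  simp only [sub_self, zero_mul, mul_zero, zero_div, zero_add, add_zero]
  field_simp

omit [Fintype F] [DecidableEq F] in
theorem cub_interp2 {x y z : F} (hxy : x ≠ y) (hyz : y ≠ z) (s : F × F × F) :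
    cub (interp x y z s) y = s.2.1 := by
  have h1 := sub_ne_zero.2 hxy.symm
  have h2 := sub_ne_zero.2 hyz
  rw [cub_interp]
  simp only [sub_self, zero_mul, mul_zero, zero_div, zero_add, add_zero]
  field_simp

omit [Fintype F] [DecidableEq F] in
theorem cub_interp3 {x y z : F} (hxz : x ≠ z) (hyz : y ≠ z) (s : F × F × F) :
    cub (interp x y z s) z = s.2.2 := by
  have h1 := sub_ne_zero.2 hxz.symm
  have h2 := sub_ne_zero.2 hyz.symm
  rw [cub_interp]
  simp only [sub_self, mul_zero, zero_div, zero_add]
  field_simp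

omit [DecidableEq F] in
theorem interp_bijective {x y z : F} (hxy : x ≠ y) (hxz : x ≠ z) (hyz : y ≠ z) :
    Function.Bijective (interp x y z) := by
  rw [← Finite.injective_iff_bijective]
  intro s t h
  have h1 := cub_interp1 hxy hxz s
  have h2 := cub_interp2 hxy hyz s
  have h3 := cub_interp3 hxz hyz s
  rw [h] at h1 h2 h3
  rw [cub_interp1 hxy hxz t] at h1
  rw [cub_interp2 hxy hyz t] at h2
  rw [cub_interp3 hxz hyz t] at h3
  exact Prod.ext h1.symm (Prod.ext h2.symm h3.symm)

/-- the sum over all cubics of four values -/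
def T (x y z t : F) : ℤ :=
  ∑ c : F × F × F, (quadraticChar F) (cub c x) * (quadraticChar F) (cub c y) * (quadraticChar F) (cub c z) * (quadraticChar F) (cub c t)

theorem abs_chi_le (a : F) : |(quadraticChar F) a| ≤ 1 := by
  rcases quadraticChar_isQuadratic F a with h | h | h <;> rw [h] <;> norm_num

theorem T_distinct (hF : ringChar F ≠ 2) {x y z t : F} (hxy : x ≠ y) (hxz : x ≠ z) (hyz : y ≠ z)
    (hxt : x ≠ t) (hyt : y ≠ t) (hzt : z ≠ t) : |T x y z t| ≤ Fintype.card F := by
  have h1 := sub_ne_zero.2 hxt.symm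
  have h2 := sub_ne_zero.2 hyt.symm
  have h3 := sub_ne_zero.2 hzt.symm
  have h4 := sub_ne_zero.2 hxy.symm
  have h5 := sub_ne_zero.2 hyz
  have e : T x y z t = - (Fintype.card F : ℤ) *
      (quadraticChar F) (-(((t - y) * (t - z)) / ((x - y) * (x - z)) * (((t - x) * (t - z)) / ((y - x) * (y - z))) *
        (((t - x) * (t - y)) / ((z - x) * (z - y))))) := by
    rw [← sum_four (d := (t - x) * (t - y) * (t - z)) hF
      (div_ne_zero (mul_ne_zero h1 h3) (mul_ne_zero h4 h5))
      (mul_ne_zero (mul_ne_zero h1 h2) h3), T, ← (interp_bijective hxy hxz hyz).sum_comp]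
    simp only [Fintype.sum_prod_type]
    refine Finset.sum_congr rfl fun u _ => Finset.sum_congr rfl fun v _ =>
      Finset.sum_congr rfl fun w _ => ?_
    have e5 : cub (interp x y z (u, v, w)) t =
        (t - x) * (t - y) / ((z - x) * (z - y)) * w +
        ((t - y) * (t - z) / ((x - y) * (x - z)) * u + (t - x) * (t - z) / ((y - x) * (y - z)) * v +
          (t - x) * (t - y) * (t - z)) := by
      rw [cub_interp]
      simp only [div_eq_mul_inv]
      ring
    rw [cub_interp1 hxy hxz, cub_interp2 hxy hyz, cub_interp3 hxz hyz, e5]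
    ring
  rw [e, abs_mul, abs_neg, Nat.abs_cast]
  calc (Fintype.card F : ℤ) * _ ≤ (Fintype.card F : ℤ) * 1 := by
        gcongr
        exact abs_chi_le _
    _ = _ := mul_one _

theorem T_le (x y z t : F) : |T x y z t| ≤ (Fintype.card F : ℤ) ^ 3 := by
  rw [T]
  refine (Finset.abs_sum_le_sum_abs _ _).trans ?_
  calc _ ≤ ∑ _c : F × F × F, (1 : ℤ) := by
        refine Finset.sum_le_sum fun c _ => ?_
        rw [abs_mul, abs_mul, abs_mul]
        have h1 := abs_chi_le (cub c x)
        have h2 := abs_chi_le (cub c y)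
        have h3 := abs_chi_le (cub c z)
        have h4 := abs_chi_le (cub c t)
        have e1 := abs_nonneg ((quadraticChar F) (cub c x))
        have e2 := abs_nonneg ((quadraticChar F) (cub c y))
        have e3 := abs_nonneg ((quadraticChar F) (cub c z))
        have e4 := abs_nonneg ((quadraticChar F) (cub c t))
        exact mul_le_one₀ (mul_le_one₀ (mul_le_one₀ h1 e2 h2) e3 h3) e4 h4
    _ = (Fintype.card F : ℤ) ^ 3 := by
        rw [Finset.sum_const, card_univ, Fintype.card_prod, Fintype.card_prod, nsmul_eq_mul]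
        push_cast
        ring

theorem T_zero_x (hF : ringChar F ≠ 2) {y a b : F} (ha : y ≠ a) (hb : y ≠ b) :
    T y a a b = 0 ∧ T y a b a = 0 ∧ T y b a a = 0 ∧ T a y a b = 0 ∧ T a y b a = 0 ∧ T b y a a = 0 ∧
    T a a y b = 0 ∧ T a b y a = 0 ∧ T b a y a = 0 ∧ T a a b y = 0 ∧ T a b a y = 0 ∧
      T b a a y = 0 := by
  have h := sum_single hF ha hb (fun u v => (quadraticChar F) u * (quadraticChar F) u * (quadraticChar F) v)
  simp only [T]
  refine ⟨?_, ?_, ?_, ?_, ?_, ?_, ?_, ?_, ?_, ?_, ?_, ?_⟩ <;>
  · rw [← h]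
    refine Finset.sum_congr rfl fun c _ => ?_
    ring

theorem T_bound (hF : ringChar F ≠ 2) (x y z t : F) :
    |T x y z t| ≤ (Fintype.card F : ℤ) + (Fintype.card F : ℤ) ^ 3 *
      ((if x = y then 1 else 0) * (if z = t then 1 else 0) +
       (if x = z then 1 else 0) * (if y = t then 1 else 0) +
       (if x = t then 1 else 0) * (if y = z then 1 else 0)) := by
  have hq : (0 : ℤ) ≤ (Fintype.card F : ℤ) := by positivity
  have hq3 : (0 : ℤ) ≤ (Fintype.card F : ℤ) ^ 3 := by positivity
  have hT := T_le x y z t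
  have i1 : ∀ (P Q : Prop) [Decidable P] [Decidable Q],
      (0 : ℤ) ≤ (if P then 1 else 0) * (if Q then 1 else 0) := by
    intro P Q _ _
    split_ifs <;> simp
  have j1 := i1 (x = y) (z = t)
  have j2 := i1 (x = z) (y = t)
  have j3 := i1 (x = t) (y = z)
  by_cases hp : (x = y ∧ z = t) ∨ (x = z ∧ y = t) ∨ (x = t ∧ y = z)
  · have h1 : (1 : ℤ) ≤ (if x = y then 1 else 0) * (if z = t then 1 else 0) +
       (if x = z then 1 else 0) * (if y = t then 1 else 0) +
       (if x = t then 1 else 0) * (if y = z then 1 else 0) := by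
      rcases hp with ⟨h, h'⟩ | ⟨h, h'⟩ | ⟨h, h'⟩
      · rw [if_pos h, if_pos h']; linarith
      · rw [if_pos h, if_pos h'] at *; linarith
      · rw [if_pos h, if_pos h'] at *; linarith
    nlinarith
  · push Not at hp
    obtain ⟨p1, p2, p3⟩ := hp
    suffices h : |T x y z t| ≤ Fintype.card F by
      have : (0 : ℤ) ≤ (Fintype.card F : ℤ) ^ 3 *
        ((if x = y then 1 else 0) * (if z = t then 1 else 0) +
         (if x = z then 1 else 0) * (if y = t then 1 else 0) +
         (if x = t then 1 else 0) * (if y = z then 1 else 0)) := by positivity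
      linarith
    have hz : T x y z t = 0 → |T x y z t| ≤ Fintype.card F := by
      intro h
      rw [h, abs_zero]
      exact hq
    by_cases hxy : x = y
    · have hzt := p1 hxy
      subst hxy
      apply hz
      by_cases hxz : x = z
      · subst hxz
        exact (T_zero_x hF (y := t) (a := x) (b := x) hzt.symm hzt.symm).2.2.2.2.2.2.2.2.2.1
      · exact (T_zero_x hF (y := z) (a := x) (b := t) (Ne.symm hxz) hzt).2.2.2.2.2.2.1
    by_cases hxz : x = z
    · have hyt := p2 hxz
      subst hxz
      apply hz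
      exact (T_zero_x hF (y := y) (a := x) (b := t) (Ne.symm hxy) hyt).2.2.2.1
    by_cases hxt : x = t
    · have hyz := p3 hxt
      subst hxt
      apply hz
      exact (T_zero_x hF (y := y) (a := x) (b := z) (Ne.symm hxy) hyz).2.2.2.2.1
    by_cases hyz : y = z
    · subst hyz
      apply hz
      exact (T_zero_x hF (y := x) (a := y) (b := t) hxy hxt).1
    by_cases hyt : y = t
    · subst hyt
      apply hz
      exact (T_zero_x hF (y := x) (a := y) (b := z) hxy hxz).2.1
    by_cases hzt : z = t
    · subst hzt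
      apply hz
      exact (T_zero_x hF (y := x) (a := z) (b := y) hxz hxy).2.2.1
    exact T_distinct hF hxy hxz hyz hxt hyt hzt

/-- fourth moment over all monic cubics -/
theorem fourth_moment (hF : ringChar F ≠ 2) :
    ∑ c : F × F × F, (∑ x : F, (quadraticChar F) (cub c x)) ^ 4 ≤ 4 * (Fintype.card F : ℤ) ^ 5 := by
  have h1 : ∑ c : F × F × F, (∑ x : F, (quadraticChar F) (cub c x)) ^ 4 =
      ∑ x : F, ∑ y : F, ∑ z : F, ∑ t : F, T x y z t := by
    have e1 : ∀ c : F × F × F, (∑ x : F, (quadraticChar F) (cub c x)) ^ 4 =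
        ∑ x : F, ∑ y : F, ∑ z : F, ∑ t : F,
          (quadraticChar F) (cub c x) * (quadraticChar F) (cub c y) * (quadraticChar F) (cub c z) * (quadraticChar F) (cub c t) := by
      intro c
      simp only [← Finset.mul_sum, ← Finset.sum_mul]
      ring
    simp only [e1, T]
    rw [Finset.sum_comm]
    refine Finset.sum_congr rfl fun x _ => ?_
    rw [Finset.sum_comm]
    refine Finset.sum_congr rfl fun y _ => ?_
    rw [Finset.sum_comm]
    refine Finset.sum_congr rfl fun z _ => ?_
    rw [Finset.sum_comm]
  rw [h1]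
  calc _ ≤ ∑ x : F, ∑ y : F, ∑ z : F, ∑ t : F, ((Fintype.card F : ℤ) + (Fintype.card F : ℤ) ^ 3 *
      ((if x = y then 1 else 0) * (if z = t then 1 else 0) +
       (if x = z then 1 else 0) * (if y = t then 1 else 0) +
       (if x = t then 1 else 0) * (if y = z then 1 else 0))) := by
        refine Finset.sum_le_sum fun x _ => Finset.sum_le_sum fun y _ =>
          Finset.sum_le_sum fun z _ => Finset.sum_le_sum fun t _ => ?_
        exact (le_abs_self _).trans (T_bound hF x y z t)
    _ = 4 * (Fintype.card F : ℤ) ^ 5 := by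
        have k0 : ∀ x : F, ∑ y : F, (if x = y then (1 : ℤ) else 0) = 1 := by
          intro x
          rw [Finset.sum_ite_eq, if_pos (mem_univ _)]
        have k1 : ∑ x : F, ∑ y : F, ∑ z : F, ∑ t : F,
            ((if x = y then (1 : ℤ) else 0) * (if z = t then 1 else 0)) =
              (Fintype.card F : ℤ) ^ 2 := by
          simp only [← Finset.mul_sum, ← Finset.sum_mul, k0, Finset.sum_const, card_univ,
            nsmul_eq_mul]
          ring
        have k2 : ∑ x : F, ∑ y : F, ∑ z : F, ∑ t : F,
            ((if x = z then (1 : ℤ) else 0) * (if y = t then 1 else 0)) =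
              (Fintype.card F : ℤ) ^ 2 := by
          simp only [← Finset.mul_sum, ← Finset.sum_mul, k0, Finset.sum_const, card_univ,
            nsmul_eq_mul]
          ring
        have k3 : ∑ x : F, ∑ y : F, ∑ z : F, ∑ t : F,
            ((if x = t then (1 : ℤ) else 0) * (if y = z then 1 else 0)) =
              (Fintype.card F : ℤ) ^ 2 := by
          simp only [← Finset.mul_sum, ← Finset.sum_mul, k0, Finset.sum_const, card_univ,
            nsmul_eq_mul]
          ring
        have k4 : ∀ (x y z t : F), ((Fintype.card F : ℤ) + (Fintype.card F : ℤ) ^ 3 *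
            ((if x = y then 1 else 0) * (if z = t then 1 else 0) +
             (if x = z then 1 else 0) * (if y = t then 1 else 0) +
             (if x = t then 1 else 0) * (if y = z then 1 else 0))) =
            (Fintype.card F : ℤ) +
              (Fintype.card F : ℤ) ^ 3 * ((if x = y then 1 else 0) * (if z = t then 1 else 0)) +
              (Fintype.card F : ℤ) ^ 3 * ((if x = z then 1 else 0) * (if y = t then 1 else 0)) +
              (Fintype.card F : ℤ) ^ 3 * ((if x = t then 1 else 0) * (if y = z then 1 else 0)) := by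
          intro x y z t
          ring
        simp only [k4, Finset.sum_add_distrib]
        have k5 : ∀ (g : F → F → F → F → ℤ), ∑ x : F, ∑ y : F, ∑ z : F, ∑ t : F,
            (Fintype.card F : ℤ) ^ 3 * g x y z t =
              (Fintype.card F : ℤ) ^ 3 * ∑ x : F, ∑ y : F, ∑ z : F, ∑ t : F, g x y z t := by
          intro g
          simp only [Finset.mul_sum]
        rw [k5 (fun x y z t => (if x = y then 1 else 0) * (if z = t then 1 else 0)),
          k5 (fun x y z t => (if x = z then 1 else 0) * (if y = t then 1 else 0)),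
          k5 (fun x y z t => (if x = t then 1 else 0) * (if y = z then 1 else 0)), k1, k2, k3]
        simp only [Finset.sum_const, card_univ, nsmul_eq_mul]
        ring

/-- the character sum of `x³ + A x + B` -/
def S (A B : F) : ℤ := ∑ x : F, (quadraticChar F) (x ^ 3 + A * x + B)

/-- the cubic `t³ f((x+s)/t)` -/
def twist (A B t s : F) : F × F × F :=
  (3 * s, 3 * s ^ 2 + A * t ^ 2, s ^ 3 + A * t ^ 2 * s + B * t ^ 3)

theorem S_twist (A B : F) {t : F} (ht : t ≠ 0) (s : F) :
    (∑ x : F, (quadraticChar F) (cub (twist A B t s) x)) ^ 4 = (S A B) ^ 4 := by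
  have h1 : ∑ x : F, (quadraticChar F) (cub (twist A B t s) x) = (quadraticChar F) t * S A B := by
    rw [S, Finset.mul_sum]
    refine Finset.sum_bij' (fun x _ => (x + s) / t) (fun y _ => t * y - s) (fun _ _ => mem_univ _)
      (fun _ _ => mem_univ _) ?_ ?_ ?_
    · intro x _
      field_simp
      ring
    · intro y _
      field_simp
      ring
    · intro x _
      have h2 : (quadraticChar F) t = (quadraticChar F) (t ^ 3) := by
        rw [pow_succ, map_mul, map_pow, quadraticChar_sq_one ht, one_mul]
      rw [h2, ← map_mul]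
      congr 1
      simp only [cub, twist]
      field_simp
      ring
  rw [h1, mul_pow]
  have h3 : ((quadraticChar F) t) ^ 4 = 1 := by
    have := quadraticChar_sq_one ht
    calc ((quadraticChar F) t) ^ 4 = (((quadraticChar F) t) ^ 2) ^ 2 := by ring
      _ = 1 := by rw [this]; ring
  rw [h3, one_mul]

omit [Fintype F] [DecidableEq F] in
theorem card_nthRootsFinset_le (n : ℕ) (a : F) : #(Polynomial.nthRootsFinset n a) ≤ n := by
  classical
  rw [Polynomial.nthRootsFinset_def]
  exact (Multiset.toFinset_card_le _).trans (Polynomial.card_nthRoots n a)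

theorem fibre_le (h3 : (3 : F) ≠ 0) {A B : F} (hAB : A ≠ 0 ∨ B ≠ 0) (c : F × F × F) :
    #{ts : F × F | twist A B ts.1 ts.2 = c} ≤ 3 := by
  classical
  -- the second coordinate is determined
  have hs : ∀ ts : F × F, twist A B ts.1 ts.2 = c → ts.2 = c.1 / 3 := by
    rintro ⟨t, s⟩ h
    have := congrArg Prod.fst h
    simp only [twist] at this
    simp only
    rw [← this]
    field_simp
  set s := c.1 / 3 with hsdef
  rcases eq_or_ne B 0 with hB | hB
  · have hA : A ≠ 0 := hAB.resolve_right (fun h => h hB)
    refine (Finset.card_le_card_of_injOn (t := Polynomial.nthRootsFinset 2 ((c.2.1 - 3 * s ^ 2) / A))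
      (fun ts => ts.1) ?_ ?_).trans ((card_nthRootsFinset_le _ _).trans (by norm_num))
    · rintro ⟨t, u⟩ h
      simp only [coe_filter, mem_univ, true_and, Set.mem_ofPred_eq] at h
      have h1 := hs (t, u) h
      simp only at h1
      subst h1
      simp only [mem_coe, Polynomial.mem_nthRootsFinset (show 0 < 2 by norm_num)]
      rw [← h]
      simp only [twist]
      field_simp
      ring
    · rintro ⟨t, u⟩ h ⟨t', u'⟩ h' e
      simp only [coe_filter, mem_univ, true_and, Set.mem_ofPred_eq] at h h'
      have h1 := hs (t, u) h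
      have h2 := hs (t', u') h'
      simp only at h1 h2 e
      rw [h1, h2, e]
  · refine (Finset.card_le_card_of_injOn (t := Polynomial.nthRootsFinset 3
        ((c.2.2 - (c.2.1 - 3 * s ^ 2) * s - s ^ 3) / B))
      (fun ts => ts.1) ?_ ?_).trans ((card_nthRootsFinset_le _ _).trans (by norm_num))
    · rintro ⟨t, u⟩ h
      simp only [coe_filter, mem_univ, true_and, Set.mem_ofPred_eq] at h
      have h1 := hs (t, u) h
      simp only at h1
      subst h1
      simp only [mem_coe, Polynomial.mem_nthRootsFinset (show 0 < 3 by norm_num)]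
      rw [← h]
      simp only [twist]
      field_simp
      ring
    · rintro ⟨t, u⟩ h ⟨t', u'⟩ h' e
      simp only [coe_filter, mem_univ, true_and, Set.mem_ofPred_eq] at h h'
      have h1 := hs (t, u) h
      have h2 := hs (t', u') h'
      simp only at h1 h2 e
      rw [h1, h2, e]

/-- **Davenport's bound** in the form `(q - 1) S^4 ≤ 12 q^4` -/
theorem S_pow_four_le (hF : ringChar F ≠ 2) (h3 : (3 : F) ≠ 0) {A B : F} (hAB : A ≠ 0 ∨ B ≠ 0) :
    ((Fintype.card F : ℤ) - 1) * (S A B) ^ 4 ≤ 12 * (Fintype.card F : ℤ) ^ 4 := by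
  classical
  have hq : 0 < (Fintype.card F : ℤ) := by
    have := Fintype.card_pos (α := F)
    exact_mod_cast this
  -- the sum over the orbit
  have h1 : ∑ ts ∈ (univ.erase (0 : F)) ×ˢ (univ : Finset F),
      (∑ x : F, (quadraticChar F) (cub (twist A B ts.1 ts.2) x)) ^ 4 =
        ((Fintype.card F : ℤ) - 1) * Fintype.card F * (S A B) ^ 4 := by
    rw [Finset.sum_congr rfl (fun ts hts => S_twist A B
      (Finset.mem_erase.1 (Finset.mem_product.1 hts).1).1 ts.2), Finset.sum_const,
      Finset.card_product, Finset.card_erase_of_mem (mem_univ _), card_univ, nsmul_eq_mul]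
    have := Fintype.card_pos (α := F)
    push_cast [Nat.cast_sub (show 1 ≤ Fintype.card F from this)]
    ring
  have h2 : ∑ ts ∈ (univ.erase (0 : F)) ×ˢ (univ : Finset F),
      (∑ x : F, (quadraticChar F) (cub (twist A B ts.1 ts.2) x)) ^ 4 ≤
        3 * ∑ c : F × F × F, (∑ x : F, (quadraticChar F) (cub c x)) ^ 4 := by
    rw [← Finset.sum_fiberwise ((univ.erase (0 : F)) ×ˢ (univ : Finset F))
      (fun ts => twist A B ts.1 ts.2), Finset.mul_sum]
    refine Finset.sum_le_sum fun c _ => ?_
    rw [Finset.sum_congr rfl (g := fun _ => (∑ x : F, (quadraticChar F) (cub c x)) ^ 4) (fun ts hts => by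
      rw [(Finset.mem_filter.1 hts).2]), Finset.sum_const, nsmul_eq_mul]
    have h4 : (0 : ℤ) ≤ (∑ x : F, (quadraticChar F) (cub c x)) ^ 4 := by positivity
    have h5 : ((#{ts ∈ (univ.erase (0 : F)) ×ˢ (univ : Finset F) | twist A B ts.1 ts.2 = c} : ℕ) : ℤ)
        ≤ 3 := by
      have h6 := (Finset.card_le_card (Finset.filter_subset_filter
        (fun ts : F × F => twist A B ts.1 ts.2 = c)
        (Finset.subset_univ ((univ.erase (0 : F)) ×ˢ (univ : Finset F))))).trans
          (fibre_le h3 hAB c)
      exact_mod_cast h6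
    exact mul_le_mul_of_nonneg_right h5 h4
  rw [h1] at h2
  have h3 := h2.trans (mul_le_mul_of_nonneg_left (fourth_moment hF) (by norm_num : (0 : ℤ) ≤ 3))
  have h4 : (Fintype.card F : ℤ) * (((Fintype.card F : ℤ) - 1) * (S A B) ^ 4) ≤
      (Fintype.card F : ℤ) * (12 * (Fintype.card F : ℤ) ^ 4) := by linarith
  exact le_of_mul_le_mul_left h4 hq

/-- number of affine points -/
theorem card_points (hF : ringChar F ≠ 2) (A B : F) :
    ((Nat.card {P : F × F // P.2 ^ 2 = P.1 ^ 3 + A * P.1 + B} : ℕ) : ℤ) =
      Fintype.card F + S A B := by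
  classical
  have e : Nat.card {P : F × F // P.2 ^ 2 = P.1 ^ 3 + A * P.1 + B} =
      ∑ x : F, #{y : F | y ^ 2 = x ^ 3 + A * x + B} := by
    rw [Nat.card_eq_fintype_card, Fintype.card_subtype]
    rw [Finset.card_eq_sum_card_fiberwise (f := Prod.fst) (t := univ) (fun _ _ => by simp)]
    refine Finset.sum_congr rfl fun x _ => ?_
    refine Finset.card_bij' (fun P _ => P.2) (fun y _ => (x, y)) ?_ ?_ ?_ ?_
    · rintro ⟨a, b⟩ h
      simp only [mem_filter, mem_univ, true_and] at h ⊢
      obtain ⟨h1, h2⟩ := h
      subst h2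
      exact h1
    · intro y h
      simp only [mem_filter, mem_univ, true_and] at h ⊢
      exact ⟨h, trivial⟩
    · rintro ⟨a, b⟩ h
      simp only [mem_filter, mem_univ, true_and] at h
      rw [h.2]
    · intro y _
      rfl
  rw [e]
  push_cast
  have h1 : ∀ x : F, ((#{y : F | y ^ 2 = x ^ 3 + A * x + B} : ℕ) : ℤ) =
      (quadraticChar F) (x ^ 3 + A * x + B) + 1 := by
    intro x
    have := quadraticChar_card_sqrts hF (x ^ 3 + A * x + B)
    rw [← this]
    congr 2
    ext y
    simp
  simp only [h1, Finset.sum_add_distrib, Finset.sum_const, card_univ, nsmul_eq_mul, mul_one]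
  rw [S]
  ring

end Pool.Agent.Dav
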